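import Mathlib

/-! # GO EQ, basic lemmas: sliding averages, periodic indicator functions -/

set_option autoImplicit false

namespace Pool.Agent.D0H20.GO

open MeasureTheory Set Filter

theorem ii (f : ℝ → ℝ) (hm : Measurable f) (C : ℝ) (hb : ∀ x, |f x| ≤ C) (a b : ℝ) :
    IntervalIntegrable f volume a b :=
  (intervalIntegrable_const (c := C)).mono_fun' hm.aestronglyMeasurable
    (Filter.Eventually.of_forall fun x => hb x)

/-- sliding average -/
theorem slide (F : ℝ → ℝ) (hm : Measurable F) (h0 : ∀ x, 0 ≤ F x) (h1 : ∀ x, F x ≤ 1) (T s t : ℝ)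
    (hT : 0 < T) : |(∫ x in s..t, F x) - T⁻¹ * ∫ a in s..t, (∫ x in a..a + T, F x)| ≤ T := by
  have hI : ∀ a b, IntervalIntegrable F volume a b :=
    ii F hm 1 (fun x => by rw [abs_of_nonneg (h0 x)]; exact h1 x)
  obtain ⟨P, hP⟩ : ∃ P : ℝ → ℝ, P = fun x => ∫ y in (0 : ℝ)..x, F y := ⟨_, rfl⟩
  have hPx : ∀ x, P x = ∫ y in (0 : ℝ)..x, F y := fun x => by rw [hP]
  have hPc : Continuous P := by
    rw [hP]
    exact intervalIntegral.continuous_primitive hI 0
  have hd : ∀ a b, P b - P a = ∫ x in a..b, F x := by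
    intro a b
    rw [hPx, hPx]
    exact intervalIntegral.integral_interval_sub_left (hI _ _) (hI _ _)
  have hmono : ∀ a b, a ≤ b → P a ≤ P b ∧ P b ≤ P a + (b - a) := by
    intro a b hab
    have e1 : 0 ≤ ∫ x in a..b, F x := intervalIntegral.integral_nonneg hab (fun x _ => h0 x)
    have e2 : ∫ x in a..b, F x ≤ ∫ _x in a..b, (1 : ℝ) :=
      intervalIntegral.integral_mono_on hab (hI _ _) intervalIntegrable_const (fun x _ => h1 x)
    rw [intervalIntegral.integral_const, smul_eq_mul, mul_one] at e2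
    rw [← hd] at e1 e2
    constructor <;> linarith
  have hcI : ∀ a b, IntervalIntegrable P volume a b := fun a b => hPc.intervalIntegrable a b
  have hcI' : ∀ a b, IntervalIntegrable (fun x => P (x + T)) volume a b := fun a b =>
    (hPc.comp (continuous_id.add continuous_const)).intervalIntegrable a b
  have e3 : ∫ a in s..t, (∫ x in a..a + T, F x) =
      (∫ x in t..t + T, P x) - ∫ x in s..s + T, P x := by
    have e4 : (fun a => ∫ x in a..a + T, F x) = fun a => P (a + T) - P a := by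
      funext a
      rw [hd]
    rw [e4, intervalIntegral.integral_sub (hcI' _ _) (hcI _ _),
      intervalIntegral.integral_comp_add_right (fun x => P x),
      intervalIntegral.integral_interval_sub_interval_comm (hcI _ _) (hcI _ _) (hcI _ _),
      intervalIntegral.integral_symm s (s + T), intervalIntegral.integral_symm t (t + T)]
    ring
  have e5 : ∀ u, T * P u ≤ (∫ x in u..u + T, P x) ∧ (∫ x in u..u + T, P x) ≤ T * (P u + T) := by
    intro u
    have hu : u ≤ u + T := by linarith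
    constructor
    · have := intervalIntegral.integral_mono_on hu (intervalIntegrable_const (c := P u)) (hcI u (u + T))
        (fun x hx => (hmono u x hx.1).1)
      rw [intervalIntegral.integral_const, smul_eq_mul] at this
      have e : u + T - u = T := by ring
      rw [e] at this
      exact this
    · have := intervalIntegral.integral_mono_on hu (hcI u (u + T))
        (intervalIntegrable_const (c := P u + T))
        (fun x hx => (hmono u x hx.1).2.trans (by have := hx.2; linarith))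
      rw [intervalIntegral.integral_const, smul_eq_mul] at this
      have e : u + T - u = T := by ring
      rw [e] at this
      exact this
  rw [e3, ← hd]
  obtain ⟨a1, a2⟩ := e5 t
  obtain ⟨b1, b2⟩ := e5 s
  have key : P t - P s - T ≤ T⁻¹ * ((∫ x in t..t + T, P x) - ∫ x in s..s + T, P x) ∧
      T⁻¹ * ((∫ x in t..t + T, P x) - ∫ x in s..s + T, P x) ≤ P t - P s + T := by
    rw [inv_mul_eq_div]
    constructor
    · rw [le_div_iff₀ hT]
      nlinarith
    · rw [div_le_iff₀ hT]
      nlinarith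
  rw [abs_le]
  constructor <;> linarith [key.1, key.2]

/-- `1` if `e ∣ ⌊y⌋ + 1`, otherwise `0` -/
noncomputable def ch (e : ℕ) (y : ℝ) : ℝ := Set.indicator {y : ℝ | (e : ℤ) ∣ ⌊y⌋ + 1} (fun _ => (1 : ℝ)) y

theorem meas_set (e : ℕ) : MeasurableSet {y : ℝ | (e : ℤ) ∣ ⌊y⌋ + 1} :=
  Int.measurable_floor (MeasurableSet.of_discrete (s := {z : ℤ | (e : ℤ) ∣ z + 1}))

theorem ch_meas (e : ℕ) : Measurable (ch e) := measurable_const.indicator (meas_set e)

theorem ch_nonneg (e : ℕ) (y : ℝ) : 0 ≤ ch e y := Set.indicator_nonneg (fun _ _ => zero_le_one) y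

theorem ch_le (e : ℕ) (y : ℝ) : ch e y ≤ 1 := by
  unfold ch
  by_cases h : y ∈ {y : ℝ | (e : ℤ) ∣ ⌊y⌋ + 1}
  · rw [Set.indicator_of_mem h]
  · rw [Set.indicator_of_notMem h]
    exact zero_le_one

theorem ch_abs (e : ℕ) (y : ℝ) : |ch e y| ≤ 1 := by
  rw [abs_of_nonneg (ch_nonneg e y)]
  exact ch_le e y

theorem ch_periodic (e : ℕ) : Function.Periodic (ch e) (e : ℝ) := by
  intro y
  unfold ch
  have h : (y + e ∈ {y : ℝ | (e : ℤ) ∣ ⌊y⌋ + 1}) ↔ y ∈ {y : ℝ | (e : ℤ) ∣ ⌊y⌋ + 1} := by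
    simp only [Set.mem_ofPred_eq]
    rw [Int.floor_add_natCast]
    constructor
    · intro h
      have h2 := dvd_sub_self_right.2 h
      have e1 : (⌊y⌋ + 1 : ℤ) = ⌊y⌋ + (e : ℤ) + 1 - e := by ring
      rw [e1]
      exact dvd_sub h (dvd_refl _)
    · intro h
      have e1 : (⌊y⌋ + (e : ℤ) + 1 : ℤ) = ⌊y⌋ + 1 + e := by ring
      rw [e1]
      exact dvd_add h (dvd_refl _)
  by_cases hy : y ∈ {y : ℝ | (e : ℤ) ∣ ⌊y⌋ + 1}
  · rw [Set.indicator_of_mem hy, Set.indicator_of_mem (h.2 hy)]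
  · rw [Set.indicator_of_notMem hy, Set.indicator_of_notMem (fun hc => hy (h.1 hc))]

theorem integral_ind (S : Set ℝ) (hS : MeasurableSet S) (a b : ℝ) (hab : a ≤ b) :
    ∫ x in a..b, Set.indicator S (fun _ => (1 : ℝ)) x = volume.real (Set.Ico a b ∩ S) := by
  rw [intervalIntegral.integral_of_le hab, integral_Ioc_eq_integral_Ioo, ← integral_Ico_eq_integral_Ioo,
    setIntegral_indicator hS, setIntegral_const, smul_eq_mul, mul_one]

theorem ch_int (e : ℕ) (he : 1 ≤ e) (y : ℝ) : ∫ x in y..y + e, ch e x = 1 := by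
  have he' : (1 : ℝ) ≤ e := by exact_mod_cast he
  rw [(ch_periodic e).intervalIntegral_add_eq y (-1)]
  have h1 := integral_ind _ (meas_set e) (-1) (-1 + e) (by linarith)
  have h2 : Set.Ico (-1 : ℝ) (-1 + e) ∩ {y : ℝ | (e : ℤ) ∣ ⌊y⌋ + 1} = Set.Ico (-1) 0 := by
    ext x
    simp only [Set.mem_inter_iff, Set.mem_Ico, Set.mem_ofPred_eq]
    constructor
    · rintro ⟨⟨a1, a2⟩, m, hm⟩
      refine ⟨a1, ?_⟩
      have b1 : -1 ≤ ⌊x⌋ := Int.le_floor.2 (by push_cast; exact a1)
      have b2 : (⌊x⌋ : ℝ) ≤ x := Int.floor_le x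
      have b3 : ⌊x⌋ + 1 < e := by
        have : (⌊x⌋ : ℝ) + 1 < e := by linarith
        exact_mod_cast this
      have b4 : m = 0 := by
        by_contra hne
        rcases lt_or_gt_of_ne hne with h | h
        · nlinarith
        · nlinarith
      rw [b4, mul_zero] at hm
      have b5 : x < ⌊x⌋ + 1 := Int.lt_floor_add_one x
      have b6 : (⌊x⌋ : ℝ) + 1 = 0 := by exact_mod_cast hm
      linarith
    · rintro ⟨a1, a2⟩
      refine ⟨⟨a1, by linarith⟩, 0, ?_⟩
      have : ⌊x⌋ = -1 := Int.floor_eq_iff.2 ⟨by push_cast; exact a1, by push_cast; linarith⟩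
      rw [this]
      ring
  have h3 : ∫ x in (-1 : ℝ)..(-1 + e), ch e x = volume.real (Set.Ico (-1 : ℝ) 0) := by
    rw [← h2]
    exact h1
  rw [h3, Real.volume_real_Ico]
  norm_num

/-- the points within `η` of a multiple of `e` -/
def nr (e : ℕ) (η : ℝ) : Set ℝ := {y : ℝ | ∃ m : ℤ, |y - m * e| ≤ η}

theorem nr_meas (e : ℕ) (η : ℝ) : MeasurableSet (nr e η) := by
  have : nr e η = ⋃ m : ℤ, {y : ℝ | |y - m * e| ≤ η} := by
    ext y
    simp [nr]
  rw [this]
  refine MeasurableSet.iUnion fun m => measurableSet_le ?_ measurable_const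
  exact (measurable_id.sub measurable_const).norm

noncomputable def wn (e : ℕ) (η : ℝ) (y : ℝ) : ℝ := Set.indicator (nr e η) (fun _ => (1 : ℝ)) y

theorem wn_meas (e : ℕ) (η : ℝ) : Measurable (wn e η) := measurable_const.indicator (nr_meas e η)

theorem wn_nonneg (e : ℕ) (η y : ℝ) : 0 ≤ wn e η y := Set.indicator_nonneg (fun _ _ => zero_le_one) y

theorem wn_le (e : ℕ) (η y : ℝ) : wn e η y ≤ 1 := by
  unfold wn
  by_cases h : y ∈ nr e η
  · rw [Set.indicator_of_mem h]
  · rw [Set.indicator_of_notMem h]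
    exact zero_le_one

theorem wn_abs (e : ℕ) (η y : ℝ) : |wn e η y| ≤ 1 := by
  rw [abs_of_nonneg (wn_nonneg e η y)]
  exact wn_le e η y

theorem wn_periodic (e : ℕ) (η : ℝ) : Function.Periodic (wn e η) (e : ℝ) := by
  intro y
  unfold wn
  have h : (y + e ∈ nr e η) ↔ y ∈ nr e η := by
    simp only [nr, Set.mem_ofPred_eq]
    constructor
    · rintro ⟨m, hm⟩
      refine ⟨m - 1, ?_⟩
      push_cast
      have : y - ((m : ℝ) - 1) * e = y + e - m * e := by ring
      rw [this]
      exact hm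
    · rintro ⟨m, hm⟩
      refine ⟨m + 1, ?_⟩
      push_cast
      have : y + e - ((m : ℝ) + 1) * e = y - m * e := by ring
      rw [this]
      exact hm
  by_cases hy : y ∈ nr e η
  · rw [Set.indicator_of_mem hy, Set.indicator_of_mem (h.2 hy)]
  · rw [Set.indicator_of_notMem hy, Set.indicator_of_notMem (fun hc => hy (h.1 hc))]

theorem wn_int (e : ℕ) (he : 1 ≤ e) (η : ℝ) (hη : 0 ≤ η) (y : ℝ) :
    ∫ x in y..y + e, wn e η x ≤ 2 * η := by
  have he' : (1 : ℝ) ≤ e := by exact_mod_cast he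
  rw [(wn_periodic e η).intervalIntegral_add_eq y (-(e / 2))]
  have h1 := integral_ind _ (nr_meas e η) (-((e : ℝ) / 2)) (-(e / 2) + e) (by linarith)
  have h3 : ∫ x in (-((e : ℝ) / 2))..(-(e / 2) + e), wn e η x =
      volume.real (Set.Ico (-((e : ℝ) / 2)) (-(e / 2) + e) ∩ nr e η) := h1
  rw [h3]
  have h2 : Set.Ico (-((e : ℝ) / 2)) (-(e / 2) + e) ∩ nr e η ⊆ Set.Icc (-η) η := by
    rintro x ⟨⟨a1, a2⟩, m, hm⟩
    rw [Set.mem_Icc, ← abs_le]
    by_cases hm0 : m = 0
    · rw [hm0] at hm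
      simpa using hm
    · have b1 : (1 : ℝ) ≤ |(m : ℝ)| := by
        have : (1 : ℤ) ≤ |m| := Int.one_le_abs hm0
        exact_mod_cast this
      have b2 : |x| ≤ e / 2 := by
        rw [abs_le]
        constructor <;> linarith
      have b3 : |(m : ℝ) * e| ≤ |x| + |x - m * e| := by
        have : (m : ℝ) * e = x - (x - m * e) := by ring
        calc |(m : ℝ) * e| = |x - (x - m * e)| := by rw [← this]
          _ ≤ |x| + |x - m * e| := abs_sub _ _
      rw [abs_mul, abs_of_nonneg (by linarith : (0 : ℝ) ≤ e)] at b3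
      nlinarith
  refine (measureReal_mono h2 ?_).trans ?_
  · rw [Real.volume_Icc]
    exact ENNReal.ofReal_ne_top
  · rw [Real.volume_real_Icc]
    rw [max_le_iff]
    constructor <;> linarith

theorem ch_diff (e : ℕ) (η y y' : ℝ) (h : |y - y'| ≤ η) :
    |ch e y - ch e y'| ≤ wn e η y' + wn e η (y' + 1) := by
  have hw1 := wn_nonneg e η y'
  have hw2 := wn_nonneg e η (y' + 1)
  have key : (∃ m : ℤ, |y' - m * e| ≤ η) ∨ (∃ m : ℤ, |y' + 1 - m * e| ≤ η) →
      |ch e y - ch e y'| ≤ wn e η y' + wn e η (y' + 1) := by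
    intro hk
    have h1 : |ch e y - ch e y'| ≤ 1 := by
      rw [abs_le]
      have := ch_nonneg e y
      have := ch_nonneg e y'
      have := ch_le e y
      have := ch_le e y'
      constructor <;> linarith
    rcases hk with hk | hk
    · have : wn e η y' = 1 := Set.indicator_of_mem (s := nr e η) hk _
      linarith
    · have : wn e η (y' + 1) = 1 := Set.indicator_of_mem (s := nr e η) hk _
      linarith
  obtain ⟨h1, h2⟩ := abs_le.1 h
  have fl : ∀ (z : ℝ) (m : ℤ), (m : ℝ) * e - 1 ≤ z → z < m * e → (e : ℤ) ∣ ⌊z⌋ + 1 := by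
    intro z m a1 a2
    have : ⌊z⌋ = m * e - 1 := Int.floor_eq_iff.2 ⟨by push_cast; exact a1, by push_cast; linarith⟩
    rw [this]
    exact ⟨m, by ring⟩
  have fl2 : ∀ z : ℝ, (e : ℤ) ∣ ⌊z⌋ + 1 → ∃ m : ℤ, (m : ℝ) * e - 1 ≤ z ∧ z < m * e := by
    rintro z ⟨m, hm⟩
    have a1 := Int.floor_le z
    have a2 := Int.lt_floor_add_one z
    have a3 : (⌊z⌋ : ℝ) + 1 = e * m := by exact_mod_cast hm
    exact ⟨m, by linarith, by linarith⟩
  by_cases hy : (e : ℤ) ∣ ⌊y⌋ + 1
  · by_cases hy' : (e : ℤ) ∣ ⌊y'⌋ + 1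
    · have c1 : ch e y = 1 := Set.indicator_of_mem (s := {y : ℝ | (e : ℤ) ∣ ⌊y⌋ + 1}) hy _
      have c2 : ch e y' = 1 := Set.indicator_of_mem (s := {y : ℝ | (e : ℤ) ∣ ⌊y⌋ + 1}) hy' _
      rw [c1, c2, sub_self, abs_zero]
      linarith
    · apply key
      obtain ⟨m, a1, a2⟩ := fl2 y hy
      by_cases hc : (m : ℝ) * e ≤ y'
      · left
        refine ⟨m, ?_⟩
        rw [abs_le]
        constructor <;> linarith
      · push Not at hc
        have hc2 : y' < m * e - 1 := by
          by_contra hcc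
          push Not at hcc
          exact hy' (fl y' m hcc hc)
        right
        refine ⟨m, ?_⟩
        rw [abs_le]
        constructor <;> linarith
  · by_cases hy' : (e : ℤ) ∣ ⌊y'⌋ + 1
    · apply key
      obtain ⟨m, a1, a2⟩ := fl2 y' hy'
      by_cases hc : (m : ℝ) * e ≤ y
      · left
        refine ⟨m, ?_⟩
        rw [abs_le]
        constructor <;> linarith
      · push Not at hc
        have hc2 : y < m * e - 1 := by
          by_contra hcc
          push Not at hcc
          exact hy (fl y m hcc hc)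
        right
        refine ⟨m, ?_⟩
        rw [abs_le]
        constructor <;> linarith
    · have c1 : ch e y = 0 := Set.indicator_of_notMem (s := {y : ℝ | (e : ℤ) ∣ ⌊y⌋ + 1}) hy _
      have c2 : ch e y' = 0 := Set.indicator_of_notMem (s := {y : ℝ | (e : ℤ) ∣ ⌊y⌋ + 1}) hy' _
      rw [c1, c2, sub_self, abs_zero]
      linarith

end Pool.Agent.D0H20.GO
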