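import Pool.Agent.D0H11.GO.Stm
import Pool.Agent.D0H20.GO.Slide

/-! # GO 1 EQ -/

set_option autoImplicit false

namespace Pool.Agent.D0H20.GO

open MeasureTheory Set Filter

/-- the joint function -/
noncomputable def hh (e e' k : ℕ) (w v : ℝ) : ℝ := ch e v * ch e' (2 ^ k * v + w)

/-- its mean value over a period in `v` -/
noncomputable def Phi (e e' k : ℕ) (w : ℝ) : ℝ :=
  ((e : ℝ) * e')⁻¹ * ∫ v in (0 : ℝ)..((e : ℝ) * e'), hh e e' k w v

theorem hh_meas2 (e e' k : ℕ) : Measurable (Function.uncurry (hh e e' k)) := by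
  unfold hh Function.uncurry
  refine ((ch_meas e).comp measurable_snd).mul ((ch_meas e').comp ?_)
  exact (measurable_const.mul measurable_snd).add measurable_fst

theorem hh_meas (e e' k : ℕ) (w : ℝ) : Measurable (hh e e' k w) := by
  unfold hh
  refine (ch_meas e).mul ((ch_meas e').comp ?_)
  exact (measurable_const.mul measurable_id).add measurable_const

theorem hh_nonneg (e e' k : ℕ) (w v : ℝ) : 0 ≤ hh e e' k w v :=
  mul_nonneg (ch_nonneg _ _) (ch_nonneg _ _)

theorem hh_le (e e' k : ℕ) (w v : ℝ) : hh e e' k w v ≤ 1 :=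
  mul_le_one₀ (ch_le _ _) (ch_nonneg _ _) (ch_le _ _)

theorem hh_abs (e e' k : ℕ) (w v : ℝ) : |hh e e' k w v| ≤ 1 := by
  rw [abs_of_nonneg (hh_nonneg e e' k w v)]
  exact hh_le e e' k w v

theorem Phi_meas (e e' k : ℕ) : Measurable (Phi e e' k) := by
  unfold Phi
  refine measurable_const.mul ?_
  have h0 : (0 : ℝ) ≤ (e : ℝ) * e' := by positivity
  simp_rw [intervalIntegral.integral_of_le h0]
  exact (hh_meas2 e e' k).stronglyMeasurable.integral_prod_right.measurable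

theorem Phi_nonneg (e e' k : ℕ) (w : ℝ) : 0 ≤ Phi e e' k w := by
  unfold Phi
  have h0 : (0 : ℝ) ≤ (e : ℝ) * e' := by positivity
  exact mul_nonneg (inv_nonneg.2 h0)
    (intervalIntegral.integral_nonneg h0 (fun v _ => hh_nonneg e e' k w v))

theorem Phi_le (e e' k : ℕ) (he : 1 ≤ e) (he' : 1 ≤ e') (w : ℝ) : Phi e e' k w ≤ 1 := by
  unfold Phi
  have h1 : (1 : ℝ) ≤ e := by exact_mod_cast he
  have h2 : (1 : ℝ) ≤ e' := by exact_mod_cast he'
  have h0 : (0 : ℝ) < (e : ℝ) * e' := by positivity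
  rw [inv_mul_eq_div, div_le_one h0]
  have := intervalIntegral.integral_mono_on h0.le
    (ii _ (hh_meas e e' k w) 1 (hh_abs e e' k w) 0 ((e : ℝ) * e'))
    (intervalIntegrable_const (c := (1 : ℝ))) (fun x _ => hh_le e e' k w x)
  rw [intervalIntegral.integral_const, smul_eq_mul, mul_one, sub_zero] at this
  exact this

theorem Phi_int (e e' k : ℕ) (he : 1 ≤ e) (he' : 1 ≤ e') (y : ℝ) :
    ∫ w in y..y + e', Phi e e' k w = 1 / e := by
  have h1 : (1 : ℝ) ≤ e := by exact_mod_cast he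
  have h2 : (1 : ℝ) ≤ e' := by exact_mod_cast he'
  have h0 : (0 : ℝ) < (e : ℝ) * e' := by positivity
  unfold Phi
  rw [intervalIntegral.integral_const_mul]
  have hswap : ∫ w in y..y + e', ∫ v in (0 : ℝ)..((e : ℝ) * e'), hh e e' k w v =
      ∫ v in (0 : ℝ)..((e : ℝ) * e'), ∫ w in y..y + e', hh e e' k w v := by
    rw [intervalIntegral.integral_of_le (by linarith), intervalIntegral.integral_of_le h0.le]
    simp_rw [intervalIntegral.integral_of_le h0.le,
      intervalIntegral.integral_of_le (by linarith : y ≤ y + (e' : ℝ))]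
    refine integral_integral_swap ?_
    exact Integrable.of_bound (hh_meas2 e e' k).aestronglyMeasurable 1
      (Filter.Eventually.of_forall fun z => hh_abs e e' k z.1 z.2)
  rw [hswap]
  have hin : ∀ v : ℝ, ∫ w in y..y + e', hh e e' k w v = ch e v := by
    intro v
    unfold hh
    rw [intervalIntegral.integral_const_mul,
      intervalIntegral.integral_comp_add_left (fun x => ch e' x) (2 ^ k * v), ← add_assoc,
      ch_int e' he', mul_one]
  simp_rw [hin]
  have hz := (ch_periodic e).intervalIntegral_add_zsmul_eq (e' : ℤ) 0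
    (ii _ (ch_meas e) 1 (ch_abs e))
  have e1 : (0 : ℝ) + (e' : ℤ) • (e : ℝ) = (e : ℝ) * e' := by
    rw [zero_add, zsmul_eq_mul, Int.cast_natCast, mul_comm]
  rw [e1, ch_int e he, zsmul_eq_mul, Int.cast_natCast, mul_one] at hz
  rw [hz]
  field_simp

theorem avg2 (e e' k : ℕ) (he : 1 ≤ e) (he' : 1 ≤ e') (B : ℝ) (hB : B ≠ 0) (a : ℝ) :
    ∫ x in a..a + (e' : ℝ) / |B|, Phi e e' k (x * B) = (e' : ℝ) / |B| * (1 / ((e : ℝ) * e')) := by
  have h1 : (1 : ℝ) ≤ e := by exact_mod_cast he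
  have h2 : (1 : ℝ) ≤ e' := by exact_mod_cast he'
  rw [intervalIntegral.integral_comp_mul_right _ hB]
  rcases lt_or_gt_of_ne hB with h | h
  · rw [abs_of_neg h]
    have e1 : (a + (e' : ℝ) / -B) * B = a * B - e' := by
      field_simp
      ring
    have e2 : a * B = (a * B - e') + e' := by ring
    rw [e1, intervalIntegral.integral_symm]
    have e3 : ∫ x in a * B - e'..a * B, Phi e e' k x = 1 / e := by
      have := Phi_int e e' k he he' (a * B - e')
      rw [← e2] at this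
      exact this
    rw [e3, smul_eq_mul]
    field_simp
  · rw [abs_of_pos h]
    have e1 : (a + (e' : ℝ) / B) * B = a * B + e' := by
      field_simp
    rw [e1, Phi_int e e' k he he', smul_eq_mul]
    field_simp

theorem hh_periodic (e e' k : ℕ) (w : ℝ) : Function.Periodic (hh e e' k w) ((e : ℝ) * e') := by
  intro v
  unfold hh
  have e1 : ch e (v + (e : ℝ) * e') = ch e v := by
    have := (ch_periodic e).nat_mul e' v
    rw [mul_comm (e : ℝ)]
    exact this
  have e2 : ch e' (2 ^ k * (v + (e : ℝ) * e') + w) = ch e' (2 ^ k * v + w) := by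
    have := (ch_periodic e').nat_mul (2 ^ k * e) (2 ^ k * v + w)
    rw [← this]
    congr 1
    push_cast
    ring
  rw [e1, e2]

theorem wn_avg (e e' k : ℕ) (he' : 1 ≤ e') (A η : ℝ) (hA : 0 < A) (hη : 0 ≤ η) (a c : ℝ) :
    ∫ x in a..a + (e : ℝ) * e' / A, wn e' η (2 ^ k * (x * A) + c) ≤ 2 * η * ((e : ℝ) * e' / A) := by
  have h2 : (1 : ℝ) ≤ e' := by exact_mod_cast he'
  have hk : (0 : ℝ) < 2 ^ k * A := by positivity
  have e0 : (fun x : ℝ => wn e' η (2 ^ k * (x * A) + c)) = fun x => wn e' η ((2 ^ k * A) * x + c) := by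
    funext x
    congr 1
    ring
  rw [e0, intervalIntegral.integral_comp_mul_add _ hk.ne']
  have hz := (wn_periodic e' η).intervalIntegral_add_zsmul_eq ((2 ^ k * e : ℕ) : ℤ)
    (2 ^ k * A * a + c) (ii _ (wn_meas e' η) 1 (wn_abs e' η))
  have e1 : 2 ^ k * A * a + c + ((2 ^ k * e : ℕ) : ℤ) • (e' : ℝ) =
      2 ^ k * A * (a + (e : ℝ) * e' / A) + c := by
    rw [zsmul_eq_mul, Int.cast_natCast]
    push_cast
    field_simp
    ring
  rw [e1, zsmul_eq_mul, Int.cast_natCast] at hz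
  rw [hz, smul_eq_mul]
  have h3 := wn_int e' he' η hη (2 ^ k * A * a + c)
  have h4 : 0 ≤ ((2 ^ k * e : ℕ) : ℝ) := Nat.cast_nonneg _
  calc (2 ^ k * A)⁻¹ * (((2 ^ k * e : ℕ) : ℝ) *
        ∫ x in (2 ^ k * A * a + c)..(2 ^ k * A * a + c + e'), wn e' η x)
      ≤ (2 ^ k * A)⁻¹ * (((2 ^ k * e : ℕ) : ℝ) * (2 * η)) :=
        mul_le_mul_of_nonneg_left (mul_le_mul_of_nonneg_left h3 h4) (inv_nonneg.2 hk.le)
    _ = 2 * η * ((e : ℝ) / A) := by
        push_cast
        field_simp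
    _ ≤ 2 * η * ((e : ℝ) * e' / A) := by
        refine mul_le_mul_of_nonneg_left ?_ (by linarith)
        refine div_le_div_of_nonneg_right ?_ hA.le
        have : (0 : ℝ) ≤ e := Nat.cast_nonneg _
        nlinarith

/-- the function of the theorem -/
noncomputable def FF (e e' k : ℕ) (A B x : ℝ) : ℝ := ch e (x * A) * ch e' (x * (2 ^ k * A + B))

theorem FF_meas (e e' k : ℕ) (A B : ℝ) : Measurable (FF e e' k A B) := by
  unfold FF
  exact ((ch_meas e).comp (measurable_id.mul measurable_const)).mul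
    ((ch_meas e').comp (measurable_id.mul measurable_const))

theorem FF_nonneg (e e' k : ℕ) (A B x : ℝ) : 0 ≤ FF e e' k A B x :=
  mul_nonneg (ch_nonneg _ _) (ch_nonneg _ _)

theorem FF_le (e e' k : ℕ) (A B x : ℝ) : FF e e' k A B x ≤ 1 :=
  mul_le_one₀ (ch_le _ _) (ch_nonneg _ _) (ch_le _ _)

theorem FF_abs (e e' k : ℕ) (A B x : ℝ) : |FF e e' k A B x| ≤ 1 := by
  rw [abs_of_nonneg (FF_nonneg e e' k A B x)]
  exact FF_le e e' k A B x

theorem avg1 (e e' k : ℕ) (he : 1 ≤ e) (he' : 1 ≤ e') (A B : ℝ) (hA : 0 < A) (a : ℝ) :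
    |(∫ x in a..a + (e : ℝ) * e' / A, FF e e' k A B x) - (e : ℝ) * e' / A * Phi e e' k (a * B)| ≤
      4 * ((e : ℝ) * e' / A * |B|) * ((e : ℝ) * e' / A) := by
  have h1 : (1 : ℝ) ≤ e := by exact_mod_cast he
  have h2 : (1 : ℝ) ≤ e' := by exact_mod_cast he'
  obtain ⟨T, hT⟩ : ∃ T : ℝ, T = (e : ℝ) * e' / A := ⟨_, rfl⟩
  have hT0 : 0 < T := by rw [hT]; positivity
  obtain ⟨η, hη⟩ : ∃ η : ℝ, η = T * |B| := ⟨_, rfl⟩
  have hη0 : 0 ≤ η := by rw [hη]; positivity
  rw [← hT, ← hη]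
  have e1 : ∫ x in a..a + T, hh e e' k (a * B) (x * A) = T * Phi e e' k (a * B) := by
    rw [intervalIntegral.integral_comp_mul_right _ hA.ne']
    have e2 : (a + T) * A = a * A + (e : ℝ) * e' := by
      rw [hT]
      field_simp
    rw [e2, (hh_periodic e e' k (a * B)).intervalIntegral_add_eq (a * A) 0, zero_add, smul_eq_mul]
    unfold Phi
    rw [hT]
    field_simp
  rw [← e1]
  have m1 : Measurable fun x => hh e e' k (a * B) (x * A) :=
    (hh_meas e e' k (a * B)).comp (measurable_id.mul measurable_const)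
  have i1 := ii _ (FF_meas e e' k A B) 1 (FF_abs e e' k A B) a (a + T)
  have i2 := ii _ m1 1 (fun x => hh_abs e e' k _ _) a (a + T)
  rw [← intervalIntegral.integral_sub i1 i2]
  have mw : ∀ c : ℝ, Measurable fun x : ℝ => wn e' η (2 ^ k * (x * A) + c) := fun c =>
    (wn_meas e' η).comp ((measurable_const.mul (measurable_id.mul measurable_const)).add measurable_const)
  have iw : ∀ c : ℝ, IntervalIntegrable (fun x : ℝ => wn e' η (2 ^ k * (x * A) + c)) volume a (a + T) :=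
    fun c => ii _ (mw c) 1 (fun x => wn_abs e' η _) a (a + T)
  have h3 : ‖∫ x in a..a + T, (FF e e' k A B x - hh e e' k (a * B) (x * A))‖ ≤
      ∫ x in a..a + T, (wn e' η (2 ^ k * (x * A) + a * B) + wn e' η (2 ^ k * (x * A) + (a * B + 1))) := by
    refine intervalIntegral.norm_integral_le_of_norm_le (by linarith)
      (Filter.Eventually.of_forall fun x hx => ?_) ((iw _).add (iw _))
    unfold FF hh
    rw [← mul_sub, Real.norm_eq_abs, abs_mul, abs_of_nonneg (ch_nonneg e (x * A))]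
    have h4 : |x * (2 ^ k * A + B) - (2 ^ k * (x * A) + a * B)| ≤ η := by
      have : x * (2 ^ k * A + B) - (2 ^ k * (x * A) + a * B) = (x - a) * B := by ring
      rw [this, abs_mul, hη]
      refine mul_le_mul_of_nonneg_right ?_ (abs_nonneg _)
      rw [abs_of_nonneg (by linarith [hx.1])]
      linarith [hx.2]
    have h5 := ch_diff e' η _ _ h4
    have h6 := ch_le e (x * A)
    have h7 := abs_nonneg (ch e' (x * (2 ^ k * A + B)) - ch e' (2 ^ k * (x * A) + a * B))
    rw [← add_assoc]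
    calc ch e (x * A) * |ch e' (x * (2 ^ k * A + B)) - ch e' (2 ^ k * (x * A) + a * B)|
        ≤ 1 * |ch e' (x * (2 ^ k * A + B)) - ch e' (2 ^ k * (x * A) + a * B)| :=
          mul_le_mul_of_nonneg_right h6 h7
      _ ≤ _ := by rw [one_mul]; exact h5
  rw [← Real.norm_eq_abs]
  refine h3.trans ?_
  rw [intervalIntegral.integral_add (iw _) (iw _)]
  have h8 := wn_avg e e' k he' A η hA hη0 a (a * B)
  have h9 := wn_avg e e' k he' A η hA hη0 a (a * B + 1)
  rw [← hT] at h8 h9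
  linarith

theorem main (e e' k : ℕ) (he : 1 ≤ e) (he' : 1 ≤ e') (A B : ℝ) (hA : 0 < A) (hB : B ≠ 0) (s t : ℝ)
    (hst : s ≤ t) :
    |(∫ x in s..t, FF e e' k A B x) - (t - s) / ((e : ℝ) * e')| ≤
      (e : ℝ) * e' / A + 4 * ((e : ℝ) * e' / A * |B|) * (t - s) + (e' : ℝ) / |B| := by
  have h1 : (1 : ℝ) ≤ e := by exact_mod_cast he
  have h2 : (1 : ℝ) ≤ e' := by exact_mod_cast he'
  have hB' : 0 < |B| := abs_pos.2 hB
  obtain ⟨T, hT⟩ : ∃ T : ℝ, T = (e : ℝ) * e' / A := ⟨_, rfl⟩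
  have hT0 : 0 < T := by rw [hT]; positivity
  obtain ⟨U, hU⟩ : ∃ U : ℝ, U = (e' : ℝ) / |B| := ⟨_, rfl⟩
  have hU0 : 0 < U := by rw [hU]; positivity
  have s1 := slide (FF e e' k A B) (FF_meas e e' k A B) (FF_nonneg e e' k A B) (FF_le e e' k A B) T s t hT0
  have mP : Measurable fun x => Phi e e' k (x * B) :=
    (Phi_meas e e' k).comp (measurable_id.mul measurable_const)
  have s3 := slide (fun x => Phi e e' k (x * B)) mP (fun x => Phi_nonneg e e' k _)
    (fun x => Phi_le e e' k he he' _) U s t hU0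
  have e3 : ∀ a : ℝ, ∫ x in a..a + U, Phi e e' k (x * B) = U * (1 / ((e : ℝ) * e')) := by
    intro a
    rw [hU]
    exact avg2 e e' k he he' B hB a
  simp_rw [e3] at s3
  rw [intervalIntegral.integral_const, smul_eq_mul] at s3
  have e4 : U⁻¹ * ((t - s) * (U * (1 / ((e : ℝ) * e')))) = (t - s) / ((e : ℝ) * e') := by
    field_simp
  rw [e4] at s3
  -- the middle step
  have hI : ∀ a b, IntervalIntegrable (FF e e' k A B) volume a b :=
    ii _ (FF_meas e e' k A B) 1 (FF_abs e e' k A B)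
  have hc : Continuous fun a => ∫ x in a..a + T, FF e e' k A B x := by
    have hP := intervalIntegral.continuous_primitive hI 0
    have : (fun a => ∫ x in a..a + T, FF e e' k A B x) =
        fun a => (∫ x in (0 : ℝ)..(a + T), FF e e' k A B x) - ∫ x in (0 : ℝ)..a, FF e e' k A B x := by
      funext a
      rw [intervalIntegral.integral_interval_sub_left (hI _ _) (hI _ _)]
    rw [this]
    exact (hP.comp (continuous_id.add continuous_const)).sub hP
  have iP : IntervalIntegrable (fun x => Phi e e' k (x * B)) volume s t :=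
    ii _ mP 1 (fun x => by rw [abs_of_nonneg (Phi_nonneg e e' k _)]; exact Phi_le e e' k he he' _) s t
  have s2 : |T⁻¹ * (∫ a in s..t, (∫ x in a..a + T, FF e e' k A B x)) - ∫ a in s..t, Phi e e' k (a * B)| ≤
      4 * (T * |B|) * (t - s) := by
    rw [← intervalIntegral.integral_const_mul, ← intervalIntegral.integral_sub
      ((hc.intervalIntegrable s t).const_mul _) iP, ← Real.norm_eq_abs]
    have := intervalIntegral.norm_integral_le_of_norm_le_const (a := s) (b := t)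
      (f := fun a => T⁻¹ * (∫ x in a..a + T, FF e e' k A B x) - Phi e e' k (a * B))
      (C := 4 * (T * |B|)) (fun a _ => by
        have h3 := avg1 e e' k he he' A B hA a
        rw [← hT] at h3
        have h4 : T⁻¹ * (∫ x in a..a + T, FF e e' k A B x) - Phi e e' k (a * B) =
            T⁻¹ * ((∫ x in a..a + T, FF e e' k A B x) - T * Phi e e' k (a * B)) := by
          field_simp
        rw [Real.norm_eq_abs, h4, abs_mul, abs_of_pos (inv_pos.2 hT0)]
        calc T⁻¹ * |(∫ x in a..a + T, FF e e' k A B x) - T * Phi e e' k (a * B)|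
            ≤ T⁻¹ * (4 * (T * |B|) * T) := mul_le_mul_of_nonneg_left h3 (inv_nonneg.2 hT0.le)
          _ = 4 * (T * |B|) := by field_simp)
    rw [abs_of_nonneg (by linarith : 0 ≤ t - s)] at this
    exact this
  rw [← hT, ← hU]
  rw [abs_le] at s1 s2 s3 ⊢
  constructor <;> linarith [s1.1, s1.2, s2.1, s2.2, s3.1, s3.2]

theorem vol_eq (e e' k : ℕ) (A B s t : ℝ) (hst : s ≤ t) :
    (volume {α : ℝ | α ∈ Set.Icc s t ∧ (e : ℤ) ∣ ⌊α * A⌋ + 1 ∧ (e' : ℤ) ∣ ⌊α * (2 ^ k * A + B)⌋ + 1}).toReal =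
      ∫ x in s..t, FF e e' k A B x := by
  obtain ⟨S, hS⟩ : ∃ S : Set ℝ, S = {α : ℝ | (e : ℤ) ∣ ⌊α * A⌋ + 1 ∧ (e' : ℤ) ∣ ⌊α * (2 ^ k * A + B)⌋ + 1} :=
    ⟨_, rfl⟩
  have hSm : MeasurableSet S := by
    rw [hS]
    exact MeasurableSet.inter ((measurable_id.mul measurable_const) (meas_set e))
      ((measurable_id.mul measurable_const) (meas_set e'))
  have h1 : FF e e' k A B = Set.indicator S (fun _ => (1 : ℝ)) := by
    funext x
    unfold FF ch
    by_cases ha : (e : ℤ) ∣ ⌊x * A⌋ + 1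
    · by_cases hb : (e' : ℤ) ∣ ⌊x * (2 ^ k * A + B)⌋ + 1
      · rw [Set.indicator_of_mem (s := {y : ℝ | (e : ℤ) ∣ ⌊y⌋ + 1}) ha,
          Set.indicator_of_mem (s := {y : ℝ | (e' : ℤ) ∣ ⌊y⌋ + 1}) hb,
          Set.indicator_of_mem (s := S) (by rw [hS]; exact ⟨ha, hb⟩), mul_one]
      · rw [Set.indicator_of_notMem (s := {y : ℝ | (e' : ℤ) ∣ ⌊y⌋ + 1}) hb,
          Set.indicator_of_notMem (s := S) (by rw [hS]; exact fun h => hb h.2), mul_zero]
    · rw [Set.indicator_of_notMem (s := {y : ℝ | (e : ℤ) ∣ ⌊y⌋ + 1}) ha,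
        Set.indicator_of_notMem (s := S) (by rw [hS]; exact fun h => ha h.1), zero_mul]
  rw [h1, intervalIntegral.integral_of_le hst, ← integral_Icc_eq_integral_Ioc,
    setIntegral_indicator hSm, setIntegral_const, smul_eq_mul, mul_one, hS]
  rfl

theorem t_EQ : Pool.Agent.D0H11.GO.S_EQ := by
  refine ⟨4, by norm_num, ?_⟩
  intro A B s t k e e' hA hB hBA hst he he'
  rw [vol_eq e e' k A B s t hst]
  refine (main e e' k he he' A B hA hB s t hst).trans ?_
  have h1 : (1 : ℝ) ≤ e := by exact_mod_cast he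
  have h2 : (1 : ℝ) ≤ e' := by exact_mod_cast he'
  have hB' : 0 < |B| := abs_pos.2 hB
  obtain ⟨Q, hQ⟩ : ∃ Q : ℝ, Q = (e : ℝ) * e' := ⟨_, rfl⟩
  have hQ1 : 1 ≤ Q := by
    rw [hQ]
    nlinarith
  have hQe : (e' : ℝ) ≤ Q := by
    rw [hQ]
    nlinarith
  rw [← hQ]
  have hQ2 : Q ≤ Q ^ 2 := by nlinarith
  have a1 : Q / A ≤ Q ^ 2 * (1 / |B|) := by
    rw [mul_one_div]
    exact div_le_div₀ (by positivity) hQ2 hB' hBA
  have a2 : (e' : ℝ) / |B| ≤ Q ^ 2 * (1 / |B|) := by
    rw [mul_one_div]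
    exact div_le_div_of_nonneg_right (hQe.trans hQ2) hB'.le
  have a3 : Q / A * |B| ≤ Q ^ 2 * (|B| / A) := by
    rw [div_mul_eq_mul_div, mul_div_assoc']
    exact div_le_div_of_nonneg_right (mul_le_mul_of_nonneg_right hQ2 hB'.le) hA.le
  have b1 : 0 ≤ Q ^ 2 * (1 / |B|) := by positivity
  have b2 : 0 ≤ Q ^ 2 * (|B| / A) := by positivity
  have b3 : 0 ≤ t - s := by linarith
  have b4 : (Q / A * |B|) * (t - s) ≤ Q ^ 2 * (|B| / A) * (t - s) := mul_le_mul_of_nonneg_right a3 b3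
  have b5 : 0 ≤ Q ^ 2 * (1 / |B|) * (t - s) := mul_nonneg b1 b3
  have e5 : 4 * Q ^ 2 * (t - s + 1) * (|B| / A + 1 / |B|) =
      4 * (Q ^ 2 * (|B| / A) * (t - s)) + 4 * (Q ^ 2 * (|B| / A)) +
        4 * (Q ^ 2 * (1 / |B|) * (t - s)) + 4 * (Q ^ 2 * (1 / |B|)) := by ring
  rw [e5]
  linarith

end Pool.Agent.D0H20.GO
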